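import Mathlib
import Pool.Agent.P.MP_86f508_lc.Defs
import Pool.Agent.P.MP_86f508_lc.Formula

set_option autoImplicit false

universe u

open FirstOrder Pool.Agent.P.MP_86f508_lc

theorem Pool.Agent.Results.MP_86f508_lc.CompleteModels.result (p : ℕ) (hp : p.Prime) :
    ∃ φ : RALang.Sentence, ∀ (R : Type u) [RelAlg R],
      InK p R ↔ (∀ S : Set R, ∃ s, IsLUB S s) ∧ Language.Sentence.Realize R φ :=
  characterization hp
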