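import Mathlib
import Pool.Agent.P.MP_86f508_lc.Defs
import Pool.Agent.P.MP_86f508_lc.DefsDense
import Pool.Agent.P.MP_86f508_lc.Dense

set_option autoImplicit false

universe u

open FirstOrder Pool.Agent.P.MP_86f508_lc

theorem Pool.Agent.Results.MP_86f508_lc.DenseModels.result (p : ℕ) (hp : p.Prime) :
    ∃ φ : RALang.Sentence, ∀ (R : Type u) [RelAlg R],
      Language.Sentence.Realize R φ ↔ DenseInK p R :=
  ⟨phi p, fun R _ => dense_iff hp R⟩
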