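import Mathlib
import Pool.Agent.P.MP_86f508_lc.Defs
import Pool.Agent.P.MP_86f508_lc.NotElem

set_option autoImplicit false

universe u

open FirstOrder Pool.Agent.P.MP_86f508_lc

theorem Pool.Agent.Results.MP_86f508_lc.NotElementary.result (p : ℕ) (hp : p.Prime) :
    ¬ ∃ T : RALang.Theory, ∀ (R : Type u) [RelAlg R], InK p R ↔ Language.Theory.Model R T :=
  not_elementary hp
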